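import Pool.Agent.Lib.MP_af75b4_an.TestFun
import Pool.Agent.Lib.MP_af75b4_an.Tube

set_option autoImplicit false

open MeasureTheory Set

namespace Pool.Agent.Results.MP_af75b4_an.TGCCFails

open Pool.Agent.Lib.MP_af75b4_an

/-- The answer to the question is negative in every dimension `m ≥ 2` and for every finite
exponent `p ≥ 1` other than `2`: one fixed closed set, the complement of a pair of antipodal
open caps, satisfies the tubular geometric control condition but is not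
`L^p`-Logvinenko-Sereda. -/
theorem result : ∀ m : ℕ, 2 ≤ m → ∃ j : Fin (m + 1),
    IsClosed {u : Sph m | |(u : Eu m) j| ≤ 3 / 4} ∧
    TGCC (fun _ : ℝ => {u : Sph m | |(u : Eu m) j| ≤ 3 / 4}) ∧
    ∀ p : ℝ, 1 ≤ p → p ≠ 2 → ¬ LS p (fun _ : ℝ => {u : Sph m | |(u : Eu m) j| ≤ 3 / 4}) := by
  intro m hm
  obtain ⟨d, rfl⟩ : ∃ d, m = d + 2 := ⟨m - 2, by omega⟩
  refine ⟨1, ?_, tgcc_band 1, ?_⟩
  · apply isClosed_le _ continuous_const
    fun_prop
  · rintro p hp hp2 ⟨C, hC, hLS⟩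
    set c : ENNReal := ENNReal.ofReal C with hc
    have hc0 : c ≠ 0 := (ENNReal.ofReal_pos.2 hC).ne'
    have hct : c ≠ ⊤ := ENNReal.ofReal_ne_top
    have hε0 : c / 2 ≠ 0 := by
      rw [Ne, ENNReal.div_eq_zero_iff]
      push Not
      exact ⟨hc0, by norm_num⟩
    have hεt : c / 2 ≠ ⊤ := (ENNReal.div_lt_top hct (by norm_num)).ne
    obtain ⟨τ, K, s, h1, h2, h3⟩ := sphere_ratio d p hp hp2 (c / 2) hε0 hεt
    have h4 := hLS (freq d K) (freq_ge d K) (eH d τ K s) (isEig d τ K s)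
    set I := ∫⁻ u, ‖eH d τ K s u‖ₑ ^ p ∂(vol (d + 2)) with hI
    have h5 : c * I ≤ c / 2 * I := h4.trans h1
    have h6 : c ≤ c / 2 := (ENNReal.mul_le_mul_iff_left h2 h3).1 h5
    exact absurd h6 (not_le.2 (ENNReal.half_lt_self hc0 hct))

end Pool.Agent.Results.MP_af75b4_an.TGCCFails
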